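import Mathlib.Data.Setoid.Partition
import Mathlib.Data.Set.Finite.Lattice
import Mathlib.Algebra.Ring.Parity
import Mathlib.Order.Filter.AtTopBot.Basic
import Mathlib.Tactic

/-!
# Tunability is not preserved by direct products of Kripke frames

`(ℕ, =)` and `(ℕ, ≤)` are tunable, but their direct product is not.
-/

namespace Pool.Agent.Results.MP_b20271_lc.ProductNotTunable

/-- `𝓑` refines `𝓐`: every member of `𝓐` is a union of members of `𝓑`. -/
def Refines {W : Type*} (𝓑 𝓐 : Set (Set W)) : Prop :=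
  ∀ A ∈ 𝓐, ∃ 𝓒 ⊆ 𝓑, A = ⋃₀ 𝓒

/-- A family `𝓐` of subsets is tuned in the frame `(W, R)`. -/
def Tuned {W : Type*} (R : W → W → Prop) (𝓐 : Set (Set W)) : Prop :=
  ∀ U ∈ 𝓐, ∀ V ∈ 𝓐, (∃ u ∈ U, ∃ v ∈ V, R u v) → ∀ u ∈ U, ∃ v ∈ V, R u v

/-- The frame `(W, R)` is tunable: every finite partition of `W` has a finite refinement
(again a partition of `W`) that is tuned. -/
def Tunable {W : Type*} (R : W → W → Prop) : Prop :=
  ∀ 𝓐 : Set (Set W), Setoid.IsPartition 𝓐 → 𝓐.Finite →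
    ∃ 𝓑 : Set (Set W), Setoid.IsPartition 𝓑 ∧ 𝓑.Finite ∧ Refines 𝓑 𝓐 ∧ Tuned R 𝓑

/-- The relation of the direct product of two frames. -/
def ProdRel {W₁ W₂ : Type*} (R₁ : W₁ → W₁ → Prop) (R₂ : W₂ → W₂ → Prop) :
    W₁ × W₂ → W₁ × W₂ → Prop :=
  fun x y => R₁ x.1 y.1 ∧ R₂ x.2 y.2

theorem part_unique {W : Type*} {𝓐 : Set (Set W)} (h : Setoid.IsPartition 𝓐)
    {U V : Set W} (hU : U ∈ 𝓐) (hV : V ∈ 𝓐) {w : W} (h1 : w ∈ U) (h2 : w ∈ V) : U = V :=
  (h.2 w).unique ⟨hU, h1⟩ ⟨hV, h2⟩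

/-- Any frame whose relation is equality is tunable. -/
theorem tunable_eq (W : Type*) : Tunable (fun x y : W => x = y) := by
  intro 𝓐 h𝓐 hfin
  refine ⟨𝓐, h𝓐, hfin, fun A hA => ⟨{A}, by simpa using hA, by simp⟩, ?_⟩
  rintro U hU V hV ⟨u, hu, v, hv, rfl⟩
  have := part_unique h𝓐 hU hV hu hv
  subst this
  exact fun w hw => ⟨w, hw, rfl⟩

/-- The frame `(ℕ, ≤)` is tunable. -/
theorem tunable_le : Tunable (fun x y : ℕ => x ≤ y) := by
  intro 𝓐 h𝓐 hfin
  -- a bound for all bounded classes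
  have hN : ∃ N : ℕ, ∀ A ∈ 𝓐, (∀ m : ℕ, ∃ v ∈ A, m ≤ v) ∨ (∀ v ∈ A, v < N) := by
    have : ∀ A ∈ 𝓐, ∃ N : ℕ, (∀ m : ℕ, ∃ v ∈ A, m ≤ v) ∨ (∀ v ∈ A, v < N) := by
      intro A _
      by_cases h : ∀ m : ℕ, ∃ v ∈ A, m ≤ v
      · exact ⟨0, Or.inl h⟩
      · push Not at h
        obtain ⟨m, hm⟩ := h
        exact ⟨m, Or.inr hm⟩
    choose! f hf using this
    obtain ⟨N, hN⟩ := (hfin.image f).bddAbove
    refine ⟨N, fun A hA => (hf A hA).imp id fun h v hv => lt_of_lt_of_le (h v hv) ?_⟩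
    exact hN ⟨A, hA, rfl⟩
  obtain ⟨N, hN⟩ := hN
  let S1 : Set (Set ℕ) := (fun n : ℕ => ({n} : Set ℕ)) '' Set.Iio N
  let S2 : Set (Set ℕ) := {B | B.Nonempty ∧ ∃ A ∈ 𝓐, B = A ∩ Set.Ici N}
  have hpart : Setoid.IsPartition (S1 ∪ S2) := by
    refine ⟨?_, ?_⟩
    · rintro (⟨n, _, hn⟩ | ⟨hne, _⟩)
      · exact (Set.singleton_ne_empty n) hn
      · exact Set.not_nonempty_empty hne
    · intro a
      rcases lt_or_ge a N with ha | ha
      · refine ⟨{a}, ⟨Or.inl ⟨a, ha, rfl⟩, rfl⟩, ?_⟩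
        rintro B ⟨(⟨n, hn, rfl⟩ | ⟨_, A, _, rfl⟩), hB⟩
        · have : a = n := hB
          rw [this]
        · exact absurd hB.2 (not_le.mpr ha)
      · obtain ⟨A, ⟨hA, haA⟩, huniq⟩ := h𝓐.2 a
        refine ⟨A ∩ Set.Ici N, ⟨Or.inr ⟨⟨a, haA, ha⟩, A, hA, rfl⟩, ⟨haA, ha⟩⟩, ?_⟩
        rintro B ⟨(⟨n, hn, rfl⟩ | ⟨_, A', hA', rfl⟩), hB⟩
        · have : a = n := hB
          exact absurd hn (by simp [← this, ha])
        · rw [huniq A' ⟨hA', hB.1⟩]
  refine ⟨S1 ∪ S2, hpart, ?_, ?_, ?_⟩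
  · refine ((Set.finite_Iio N).image _).union ?_
    refine (hfin.image fun A => A ∩ Set.Ici N).subset ?_
    rintro B ⟨_, A, hA, rfl⟩
    exact ⟨A, hA, rfl⟩
  · intro A hA
    refine ⟨{B | B ∈ S1 ∪ S2 ∧ B ⊆ A}, fun B hB => hB.1, ?_⟩
    ext a
    constructor
    · intro ha
      rcases lt_or_ge a N with haN | haN
      · exact ⟨{a}, ⟨Or.inl ⟨a, haN, rfl⟩, by simpa using ha⟩, rfl⟩
      · exact ⟨A ∩ Set.Ici N, ⟨Or.inr ⟨⟨a, ha, haN⟩, A, hA, rfl⟩, Set.inter_subset_left⟩,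
          ⟨ha, haN⟩⟩
    · rintro ⟨B, ⟨_, hB⟩, haB⟩
      exact hB haB
  · rintro U hU V hV ⟨u, hu, v, hv, huv⟩
    rcases hV with (⟨n, hn, rfl⟩ | ⟨_, A, hA, rfl⟩)
    · have hvn : v = n := hv
      subst hvn
      rcases hU with (⟨k, hk, rfl⟩ | ⟨_, A', _, rfl⟩)
      · rintro w rfl
        have : u = w := hu
        exact ⟨v, rfl, this ▸ huv⟩
      · exact absurd (lt_of_le_of_lt huv hn) (not_lt.mpr hu.2)
    · intro w _
      rcases hN A hA with h | h
      · obtain ⟨z, hz, hzm⟩ := h (max w N)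
        exact ⟨z, ⟨hz, le_trans (le_max_right _ _) hzm⟩, le_trans (le_max_left _ _) hzm⟩
      · exact absurd (h v hv.1) (not_lt.mpr hv.2)

/-- The colouring used on the product. -/
def Col : Set (ℕ × ℕ) := {x | Odd x.2 ∧ x.2 < 2 * x.1}

theorem key {𝓑 : Set (Set (ℕ × ℕ))} (hpart : Setoid.IsPartition 𝓑)
    (hcol : ∀ B ∈ 𝓑, B ⊆ Col ∨ B ⊆ Colᶜ)
    (htuned : Tuned (ProdRel (fun x y : ℕ => x = y) (fun x y : ℕ => x ≤ y)) 𝓑) (n : ℕ) :
    ∀ j m m' : ℕ, m + (j + 1) = 2 * n → ∀ B ∈ 𝓑, (n, m) ∈ B → (n, m') ∈ B → m' ≤ m := by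
  intro j
  induction j with
  | zero =>
    intro m m' hm B hB h1 h2
    have hc : (n, m) ∈ Col := by
      refine ⟨?_, ?_⟩
      · have : Even (m + 1) := ⟨n, by omega⟩
        rcases Nat.even_or_odd m with h | h
        · exact absurd this (Nat.not_even_iff_odd.mpr h.add_one)
        · exact h
      · change m < 2 * n
        omega
    have hc' : (n, m') ∈ Col := by
      rcases hcol B hB with h | h
      · exact h h2
      · exact absurd hc (h h1)
    have : m' < 2 * n := hc'.2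
    omega
  | succ j ih =>
    intro m m' hm B hB h1 h2
    obtain ⟨V, ⟨hV, hmV⟩, _⟩ := hpart.2 (n, m + 1)
    obtain ⟨⟨n'', v⟩, hvV, hv1, hv2⟩ := htuned B hB V hV
      ⟨(n, m), h1, (n, m + 1), hmV, rfl, Nat.le_succ m⟩ (n, m') h2
    dsimp only at hv1 hv2
    subst hv1
    have hle : v ≤ m + 1 := ih (m + 1) v (by omega) V hV hmV hvV
    have hm' : m' ≤ m + 1 := le_trans hv2 hle
    -- same colour, hence same parity
    have hiff : (n, m) ∈ Col ↔ (n, m') ∈ Col := by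
      rcases hcol B hB with h | h
      · exact ⟨fun _ => h h2, fun _ => h h1⟩
      · exact ⟨fun hh => absurd hh (h h1), fun hh => absurd hh (h h2)⟩
    by_contra hcon
    have heq : m' = m + 1 := by omega
    subst heq
    have ho : Odd m ↔ Odd (m + 1) := by
      constructor
      · intro h
        exact (hiff.mp ⟨h, by change m < 2 * n; omega⟩).1
      · intro h
        exact (hiff.mpr ⟨h, by change m + 1 < 2 * n; omega⟩).1
    rcases Nat.even_or_odd m with h | h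
    · exact Nat.not_odd_iff_even.mpr h (ho.mpr h.add_one)
    · exact Nat.not_odd_iff_even.mpr h.add_one (ho.mp h)

theorem not_tunable_prod :
    ¬ Tunable (ProdRel (fun x y : ℕ => x = y) (fun x y : ℕ => x ≤ y)) := by
  intro h
  have hmem1 : ((1, 1) : ℕ × ℕ) ∈ Col := ⟨odd_one, by norm_num⟩
  have hmem0 : ((0, 0) : ℕ × ℕ) ∉ Col := fun h => by simpa using h.2
  have hp : Setoid.IsPartition ({Col, Colᶜ} : Set (Set (ℕ × ℕ))) := by
    refine ⟨?_, ?_⟩
    · rintro (h | h)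
      · have := hmem1
        rw [← h] at this
        exact this
      · have : ((0, 0) : ℕ × ℕ) ∈ Colᶜ := hmem0
        rw [← Set.mem_singleton_iff.mp h] at this
        exact this
    · intro a
      by_cases ha : a ∈ Col
      · refine ⟨Col, ⟨Or.inl rfl, ha⟩, ?_⟩
        rintro B ⟨(rfl | rfl), hB⟩
        · rfl
        · exact absurd ha hB
      · refine ⟨Colᶜ, ⟨Or.inr rfl, ha⟩, ?_⟩
        rintro B ⟨(rfl | rfl), hB⟩
        · exact absurd hB ha
        · rfl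
  obtain ⟨𝓑, hpart, hfin, href, htuned⟩ := h {Col, Colᶜ} hp (Set.toFinite _)
  have hcol : ∀ B ∈ 𝓑, B ⊆ Col ∨ B ⊆ Colᶜ := by
    intro B hB
    have hne : B.Nonempty := Setoid.nonempty_of_mem_partition hpart hB
    obtain ⟨b, hb⟩ := hne
    by_cases hbc : b ∈ Col
    · left
      obtain ⟨𝓒, h𝓒, hE⟩ := href Col (Or.inl rfl)
      have hb' := hbc
      rw [hE] at hb'
      obtain ⟨C, hC, hbC⟩ := hb'
      have : B = C := part_unique hpart hB (h𝓒 hC) hb hbC
      rw [this, hE]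
      exact Set.subset_sUnion_of_mem hC
    · right
      obtain ⟨𝓒, h𝓒, hE⟩ := href Colᶜ (Or.inr rfl)
      have hb' : b ∈ Colᶜ := hbc
      rw [hE] at hb'
      obtain ⟨C, hC, hbC⟩ := hb'
      have : B = C := part_unique hpart hB (h𝓒 hC) hb hbC
      rw [this, hE]
      exact Set.subset_sUnion_of_mem hC
  -- choose the class of each point
  choose cl hcl _ using fun a => hpart.2 a
  set n := hfin.toFinset.card + 1 with hn
  have hinj : Set.InjOn (fun m : ℕ => cl (n, m)) (Finset.range (2 * n) : Set ℕ) := by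
    intro a ha b hb hab
    simp only [Finset.coe_range, Set.mem_Iio] at ha hb
    dsimp only at hab
    have h1 := key hpart hcol htuned n (2 * n - a - 1) a b (by omega) _ (hcl (n, a)).1
      (hcl (n, a)).2 (hab ▸ (hcl (n, b)).2)
    have h2 := key hpart hcol htuned n (2 * n - b - 1) b a (by omega) _ (hcl (n, b)).1
      (hcl (n, b)).2 (hab ▸ (hcl (n, a)).2)
    omega
  have hcard : (Finset.range (2 * n)).card ≤ hfin.toFinset.card :=
    Finset.card_le_card_of_injOn (fun m : ℕ => cl (n, m))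
      (fun m _ => by simpa using (hcl (n, m)).1) hinj
  rw [Finset.card_range] at hcard
  omega

/-- **Negative answer to Q1 of MP_b20271_lc.**  The direct product of two tunable frames need
not be tunable: `(ℕ, =)` and `(ℕ, ≤)` are tunable and their direct product is not. -/
theorem result :
    Tunable (fun x y : ℕ => x = y) ∧ Tunable (fun x y : ℕ => x ≤ y) ∧
      ¬ Tunable (ProdRel (fun x y : ℕ => x = y) (fun x y : ℕ => x ≤ y)) :=
  ⟨tunable_eq ℕ, tunable_le, not_tunable_prod⟩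

end Pool.Agent.Results.MP_b20271_lc.ProductNotTunable
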